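import Mathlib

/-!
MP_f9b6b5_al, Q1: the answer is no. Over every field of characteristic zero, the principal
symmetric ideal `I` of `k[x₁, x₂, x₃]` generated by the orbit of `(x₁ + x₂ + x₃) (x₁ - x₂)` has no
`k`-symmetric polynomial in any minimal generating set, and its Hilbert function `1, 3, 4, 5, ...`
is not the Hilbert function of a symmetric ideal generated by monomials and binomials.

Reason: a symmetric ideal `J` generated by monomials and binomials with `H_J(1) = 3` and
`H_J(2) = 4` has `J_2` spanned by the `x_i ^ 2 - x_j ^ 2` or by the `x_k (x_i - x_j)`, and in both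
cases two coprime quadrics, so `H_J(3) ≤ 4`, while `H_I(3) = 5`.
-/

set_option autoImplicit false

open MvPolynomial

universe u

namespace Pool.Agent.Results.MP_f9b6b5_al.NoBinomialIdeal

section Defs

variable {k : Type u} [Field k] {n : ℕ}

/-- The ideal `I` of `k[x_1, ..., x_n]` is homogeneous: it contains the homogeneous components of
its elements. -/
def IsHomogeneousIdeal (I : Ideal (MvPolynomial (Fin n) k)) : Prop :=
  ∀ f ∈ I, ∀ d : ℕ, homogeneousComponent d f ∈ I

/-- The ideal `I` of `k[x_1, ..., x_n]` is symmetric: `σ(I) = I` for all permutations `σ` of the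
variables. -/
def IsSymmetricIdeal (I : Ideal (MvPolynomial (Fin n) k)) : Prop :=
  ∀ σ : Equiv.Perm (Fin n), I.map (rename (R := k) σ) = I

/-- The polynomial `f` is `k`-symmetric: it is not zero and every permutation of the variables
multiplies it with a scalar. -/
def IsKSymmetric (f : MvPolynomial (Fin n) k) : Prop :=
  f ≠ 0 ∧ ∀ σ : Equiv.Perm (Fin n), ∃ c : k, rename σ f = C c * f

/-- The set `G` is a minimal generating set of the ideal `I`: it generates `I`, and either it
consists of homogeneous polynomials and no proper subset of it generates `I`, or it is finite and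
no generating set of `I` has fewer elements. -/
def IsMinimalGeneratingSet (I : Ideal (MvPolynomial (Fin n) k))
    (G : Set (MvPolynomial (Fin n) k)) : Prop :=
  Ideal.span G = I ∧
    (((∀ g ∈ G, ∃ d : ℕ, g.IsHomogeneous d) ∧ ∀ G' : Set (MvPolynomial (Fin n) k),
        G' ⊂ G → Ideal.span G' ≠ I) ∨
      (G.Finite ∧ ∀ G' : Set (MvPolynomial (Fin n) k),
        G'.Finite → Ideal.span G' = I → G.ncard ≤ G'.ncard))

/-- The polynomial `f` is a monomial or a binomial (with arbitrary nonzero coefficients). -/
def IsMonomialOrBinomial (f : MvPolynomial (Fin n) k) : Prop :=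
  (∃ (m : Fin n →₀ ℕ) (a : k), a ≠ 0 ∧ f = monomial m a) ∨
    ∃ (m₁ m₂ : Fin n →₀ ℕ) (a b : k), m₁ ≠ m₂ ∧ a ≠ 0 ∧ b ≠ 0 ∧
      f = monomial m₁ a + monomial m₂ b

/-- The degree `d` part of the ideal `I`, as a subspace of the space of the homogeneous polynomials
of degree `d`. -/
noncomputable def degreePart (I : Ideal (MvPolynomial (Fin n) k)) (d : ℕ) :
    Submodule k (homogeneousSubmodule (Fin n) k d) :=
  (I.restrictScalars k).comap (homogeneousSubmodule (Fin n) k d).subtype

/-- The Hilbert function `H_I(d) = dim_k (R / I)_d` of the homogeneous ideal `I` of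
`R = k[x_1, ..., x_n]`. -/
noncomputable def hilbertFunction (I : Ideal (MvPolynomial (Fin n) k)) (d : ℕ) : ℕ :=
  Module.finrank k (homogeneousSubmodule (Fin n) k d ⧸ degreePart I d)

end Defs

/-- The principal symmetric ideal of `k[x_1, x_2, x_3]` generated by the orbit of
`(x_1 + x_2 + x_3) (x_1 - x_2)`. -/
noncomputable def counterexample (k : Type u) [Field k] : Ideal (MvPolynomial (Fin 3) k) :=
  Ideal.span (Set.range fun σ : Equiv.Perm (Fin 3) =>
    rename σ ((X 0 + X 1 + X 2) * (X 0 - X 1) : MvPolynomial (Fin 3) k))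

section General

variable {k : Type u} [Field k] {n : ℕ}

theorem finrank_degreePart (I : Ideal (MvPolynomial (Fin n) k)) (d : ℕ) :
    Module.finrank k (degreePart I d) =
      Module.finrank k ↥(homogeneousSubmodule (Fin n) k d ⊓ I.restrictScalars k :
        Submodule k (MvPolynomial (Fin n) k)) := by
  rw [← Submodule.finrank_map_subtype_eq (homogeneousSubmodule (Fin n) k d) (degreePart I d),
    degreePart, Submodule.map_comap_subtype]

theorem finite_homogeneous (d : ℕ) : Module.Finite k (homogeneousSubmodule (Fin n) k d) :=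
  Module.Finite.iff_fg.2 (homogeneousSubmodule_fg (Fin n) k d)

/-- Equal Hilbert functions give equal dimensions of the degree parts. -/
theorem finrank_eq_of_hilbert {I J : Ideal (MvPolynomial (Fin n) k)} {d : ℕ}
    (h : hilbertFunction I d = hilbertFunction J d) :
    Module.finrank k ↥(homogeneousSubmodule (Fin n) k d ⊓ I.restrictScalars k :
        Submodule k (MvPolynomial (Fin n) k)) =
      Module.finrank k ↥(homogeneousSubmodule (Fin n) k d ⊓ J.restrictScalars k :
        Submodule k (MvPolynomial (Fin n) k)) := by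
  have := finite_homogeneous (k := k) (n := n) d
  have h1 := Submodule.finrank_quotient_add_finrank (degreePart I d)
  have h2 := Submodule.finrank_quotient_add_finrank (degreePart J d)
  rw [← finrank_degreePart, ← finrank_degreePart]
  unfold hilbertFunction at h
  omega

theorem finite_inf (I : Ideal (MvPolynomial (Fin n) k)) (d : ℕ) :
    Module.Finite k ↥(homogeneousSubmodule (Fin n) k d ⊓ I.restrictScalars k :
        Submodule k (MvPolynomial (Fin n) k)) := by
  have := finite_homogeneous (k := k) (n := n) d
  exact Submodule.finiteDimensional_of_le (inf_le_left : _ ≤ homogeneousSubmodule (Fin n) k d)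

/-- Component of a product with a homogeneous polynomial. -/
theorem comp_mul (a f : MvPolynomial (Fin n) k) (m d : ℕ) (hf : f.IsHomogeneous m) :
    homogeneousComponent (d + m) (a * f) = homogeneousComponent d a * f := by
  conv_lhs => rw [← sum_homogeneousComponent a, Finset.sum_mul, map_sum]
  have h1 : ∀ i ∈ Finset.range (a.totalDegree + 1),
      homogeneousComponent (d + m) (homogeneousComponent i a * f) =
        if d = i then homogeneousComponent d a * f else 0 := by
    intro i _
    rw [homogeneousComponent_of_mem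
      (((homogeneousComponent_isHomogeneous i a).mul hf : (_ * f).IsHomogeneous (i + m)))]
    by_cases h : d = i
    · subst h; simp
    · rw [if_neg (by omega), if_neg h]
  rw [Finset.sum_congr rfl h1, Finset.sum_ite_eq]
  by_cases h : d ∈ Finset.range (a.totalDegree + 1)
  · rw [if_pos h]
  · rw [if_neg h, homogeneousComponent_eq_zero, zero_mul]
    rw [Finset.mem_range] at h
    omega

theorem comp_mul_lt (a f : MvPolynomial (Fin n) k) (m d : ℕ) (hf : f.IsHomogeneous m)
    (hd : d < m) : homogeneousComponent d (a * f) = 0 := by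
  conv_lhs => rw [← sum_homogeneousComponent a, Finset.sum_mul, map_sum]
  refine Finset.sum_eq_zero fun i _ => ?_
  rw [homogeneousComponent_of_mem
    (((homogeneousComponent_isHomogeneous i a).mul hf : (_ * f).IsHomogeneous (i + m))),
    if_neg (by omega)]

/-- The ideal of the polynomials of order at least `m`. -/
def ordIdeal (k : Type u) [Field k] (n m : ℕ) : Ideal (MvPolynomial (Fin n) k) where
  carrier := {f | ∀ u : Fin n →₀ ℕ, u.degree < m → coeff u f = 0}
  add_mem' := by
    intro a b ha hb u hu
    rw [coeff_add, ha u hu, hb u hu, add_zero]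
  zero_mem' := by
    intro u _
    simp
  smul_mem' := by
    intro c f hf u hu
    rw [smul_eq_mul, coeff_mul]
    refine Finset.sum_eq_zero fun p hp => ?_
    rw [Finset.HasAntidiagonal.mem_antidiagonal] at hp
    have h1 : p.2.degree < m := by
      have h2 : p.1.degree + p.2.degree = u.degree := by rw [← map_add, hp]
      omega
    rw [hf p.2 h1, mul_zero]

theorem mem_ordIdeal {m : ℕ} {f : MvPolynomial (Fin n) k} :
    f ∈ ordIdeal k n m ↔ ∀ u : Fin n →₀ ℕ, u.degree < m → coeff u f = 0 := Iff.rfl

theorem mem_ordIdeal_iff {m : ℕ} {f : MvPolynomial (Fin n) k} :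
    f ∈ ordIdeal k n m ↔ ∀ d < m, homogeneousComponent d f = 0 := by
  rw [mem_ordIdeal]
  constructor
  · intro h d hd
    ext u
    rw [coeff_homogeneousComponent, coeff_zero]
    split_ifs with h1
    · exact h u (h1 ▸ hd)
    · rfl
  · intro h u hu
    have h1 := h _ hu
    have h2 := coeff_homogeneousComponent u.degree f u
    rw [h1, coeff_zero, if_pos rfl] at h2
    exact h2.symm

end General

section Three

variable {k : Type u} [Field k]

/-- First quadric. -/
noncomputable def F (k : Type u) [Field k] : MvPolynomial (Fin 3) k :=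
  (X 0 + X 1 + X 2) * (X 0 - X 1)

/-- Second quadric. -/
noncomputable def G (k : Type u) [Field k] : MvPolynomial (Fin 3) k :=
  (X 0 + X 1 + X 2) * (X 1 - X 2)

theorem F_hom : (F k).IsHomogeneous 2 := by
  unfold F
  exact (((isHomogeneous_X _ _).add (isHomogeneous_X _ _)).add (isHomogeneous_X _ _)).mul
    ((isHomogeneous_X _ _).sub (isHomogeneous_X _ _))

theorem G_hom : (G k).IsHomogeneous 2 := by
  unfold G
  exact (((isHomogeneous_X _ _).add (isHomogeneous_X _ _)).add (isHomogeneous_X _ _)).mul
    ((isHomogeneous_X _ _).sub (isHomogeneous_X _ _))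

theorem perm_sum (σ : Equiv.Perm (Fin 3)) :
    (X (σ 0) + X (σ 1) + X (σ 2) : MvPolynomial (Fin 3) k) = X 0 + X 1 + X 2 := by
  have h := Equiv.sum_comp σ (fun i => (X i : MvPolynomial (Fin 3) k))
  simpa [Fin.sum_univ_three] using h

theorem rename_F (σ : Equiv.Perm (Fin 3)) :
    rename σ ((X 0 + X 1 + X 2) * (X 0 - X 1) : MvPolynomial (Fin 3) k) =
      (X 0 + X 1 + X 2) * (X (σ 0) - X (σ 1)) := by
  simp only [map_mul, map_add, map_sub, rename_X]
  rw [perm_sum]

theorem mem_pair (i j : Fin 3) :
    ((X 0 + X 1 + X 2) * (X i - X j) : MvPolynomial (Fin 3) k) ∈ Ideal.span {F k, G k} := by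
  rw [Ideal.mem_span_pair]
  fin_cases i <;> fin_cases j
  · exact ⟨0, 0, by simp⟩
  · exact ⟨1, 0, by simp [F]⟩
  · exact ⟨1, 1, by simp only [F, G, Fin.zero_eta, Fin.reduceFinMk]; ring⟩
  · exact ⟨-1, 0, by simp only [F, G, Fin.zero_eta, Fin.mk_one]; ring⟩
  · exact ⟨0, 0, by simp⟩
  · exact ⟨0, 1, by simp [G]⟩
  · exact ⟨-1, -1, by simp only [F, G, Fin.zero_eta, Fin.reduceFinMk]; ring⟩
  · exact ⟨0, -1, by simp only [F, G, Fin.mk_one, Fin.reduceFinMk]; ring⟩
  · exact ⟨0, 0, by simp⟩

theorem counterexample_eq : counterexample k = Ideal.span {F k, G k} := by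
  apply le_antisymm
  · unfold counterexample
    rw [Ideal.span_le]
    rintro _ ⟨σ, rfl⟩
    simp only [SetLike.mem_coe]
    rw [rename_F]
    exact mem_pair _ _
  · rw [Ideal.span_le]
    have h : ∀ σ : Equiv.Perm (Fin 3), ((X 0 + X 1 + X 2) * (X (σ 0) - X (σ 1)) :
        MvPolynomial (Fin 3) k) ∈ counterexample k := by
      intro σ
      rw [← rename_F]
      exact Ideal.subset_span ⟨σ, rfl⟩
    intro x hx
    rcases hx with rfl | rfl
    · have := h 1
      simpa [F] using this
    · have := h (finRotate 3)
      simpa [G] using this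

theorem counterexample_symmetric : IsSymmetricIdeal (counterexample k) := by
  have h : ∀ σ : Equiv.Perm (Fin 3),
      (counterexample k).map (rename (R := k) σ) ≤ counterexample k := by
    intro σ
    unfold counterexample
    rw [Ideal.map_span, Ideal.span_le]
    rintro _ ⟨_, ⟨τ, rfl⟩, rfl⟩
    refine Ideal.subset_span ⟨σ * τ, ?_⟩
    simp only
    rw [rename_rename]
    rfl
  intro σ
  refine le_antisymm (h σ) ?_
  intro x hx
  have h1 : rename (R := k) (⇑(σ⁻¹)) x ∈ counterexample k := h σ⁻¹ (Ideal.mem_map_of_mem _ hx)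
  have h2 := Ideal.mem_map_of_mem (rename (R := k) σ) h1
  rw [rename_rename] at h2
  have h3 : (⇑σ ∘ ⇑(σ⁻¹) : Fin 3 → Fin 3) = id := by
    ext i
    simp
  rw [h3, rename_id_apply] at h2
  exact h2

/-- Elements of the counterexample: homogeneous components. -/
theorem comp_of_mem {h : MvPolynomial (Fin 3) k} {a b : MvPolynomial (Fin 3) k}
    (hab : a * F k + b * G k = h) (d : ℕ) :
    homogeneousComponent (d + 2) h =
      homogeneousComponent d a * F k + homogeneousComponent d b * G k := by
  rw [← hab, map_add, comp_mul _ _ _ _ F_hom, comp_mul _ _ _ _ G_hom]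

theorem low_of_mem {h : MvPolynomial (Fin 3) k} (hh : h ∈ counterexample k) (d : ℕ)
    (hd : d < 2) : homogeneousComponent d h = 0 := by
  rw [counterexample_eq, Ideal.mem_span_pair] at hh
  obtain ⟨a, b, rfl⟩ := hh
  rw [map_add, comp_mul_lt _ _ _ _ F_hom hd, comp_mul_lt _ _ _ _ G_hom hd, add_zero]

theorem counterexample_homogeneous : IsHomogeneousIdeal (counterexample k) := by
  intro h hh d
  by_cases hd : d < 2
  · rw [low_of_mem hh d hd]
    exact zero_mem _
  · obtain ⟨e, rfl⟩ : ∃ e, d = e + 2 := ⟨d - 2, by omega⟩
    have hh' := hh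
    rw [counterexample_eq, Ideal.mem_span_pair] at hh
    obtain ⟨a, b, hab⟩ := hh
    rw [comp_of_mem hab, counterexample_eq, Ideal.mem_span_pair]
    exact ⟨_, _, rfl⟩

/-- Degree two part. -/
theorem degree_two {h : MvPolynomial (Fin 3) k} (hh : h ∈ counterexample k)
    (h2 : h.IsHomogeneous 2) : ∃ a b : k, h = C a * F k + C b * G k := by
  rw [counterexample_eq, Ideal.mem_span_pair] at hh
  obtain ⟨a, b, hab⟩ := hh
  have h3 := comp_of_mem hab 0
  rw [zero_add, homogeneousComponent_eq_self h2, homogeneousComponent_zero,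
    homogeneousComponent_zero] at h3
  exact ⟨_, _, h3⟩

theorem linear_form {a : MvPolynomial (Fin 3) k} (ha : a.IsHomogeneous 1) :
    ∃ c : Fin 3 → k, a = C (c 0) * X 0 + C (c 1) * X 1 + C (c 2) * X 2 := by
  rw [← mem_homogeneousSubmodule, homogeneousSubmodule_one_eq_span_X,
    Submodule.mem_span_range_iff_exists_fun] at ha
  obtain ⟨c, hc⟩ := ha
  refine ⟨c, ?_⟩
  rw [← hc, Fin.sum_univ_three]
  simp only [smul_eq_C_mul]

theorem degree_three {h : MvPolynomial (Fin 3) k} (hh : h ∈ counterexample k)
    (h3 : h.IsHomogeneous 3) :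
    h ∈ Submodule.span k (Set.range ![X 0 * F k, X 1 * F k, X 0 * G k, X 1 * G k, X 2 * G k]) := by
  rw [counterexample_eq, Ideal.mem_span_pair] at hh
  obtain ⟨a, b, hab⟩ := hh
  have h4 := comp_of_mem hab 1
  rw [show 1 + 2 = 3 from rfl, homogeneousComponent_eq_self h3] at h4
  obtain ⟨c, hc⟩ := linear_form (homogeneousComponent_isHomogeneous 1 a)
  obtain ⟨d, hd⟩ := linear_form (homogeneousComponent_isHomogeneous 1 b)
  rw [hc, hd] at h4
  rw [Submodule.mem_span_range_iff_exists_fun]
  refine ⟨![c 0, c 1 + c 2, d 0 - c 2, d 1 + c 2, d 2], ?_⟩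
  rw [h4]
  simp only [Fin.sum_univ_five, Matrix.cons_val, smul_eq_C_mul, map_add, map_sub]
  unfold F G
  ring

theorem finrank_three :
    Module.finrank k ↥(homogeneousSubmodule (Fin 3) k 3 ⊓ (counterexample k).restrictScalars k :
        Submodule k (MvPolynomial (Fin 3) k)) ≤ 5 := by
  have := FiniteDimensional.span_of_finite k (Set.finite_range
    ![X 0 * F k, X 1 * F k, X 0 * G k, X 1 * G k, X 2 * G k])
  refine (Submodule.finrank_mono (t := Submodule.span k (Set.range
    ![X 0 * F k, X 1 * F k, X 0 * G k, X 1 * G k, X 2 * G k])) ?_).trans ?_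
  · rintro h ⟨h1, h2⟩
    exact degree_three h2 h1
  · exact (finrank_range_le_card _).trans (by simp)

theorem finrank_two :
    Module.finrank k ↥(homogeneousSubmodule (Fin 3) k 2 ⊓ (counterexample k).restrictScalars k :
        Submodule k (MvPolynomial (Fin 3) k)) ≤ 2 := by
  have := FiniteDimensional.span_of_finite k (Set.finite_range ![F k, G k])
  refine (Submodule.finrank_mono (t := Submodule.span k (Set.range ![F k, G k])) ?_).trans ?_
  · rintro h ⟨h1, h2⟩
    obtain ⟨a, b, rfl⟩ := degree_two h2 h1
    rw [Submodule.mem_span_range_iff_exists_fun]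
    refine ⟨![a, b], ?_⟩
    simp [smul_eq_C_mul]
  · exact (finrank_range_le_card _).trans (by simp)

theorem F_mem : F k ∈ counterexample k := by
  rw [counterexample_eq]
  exact Ideal.subset_span (by simp)

theorem G_mem : G k ∈ counterexample k := by
  rw [counterexample_eq]
  exact Ideal.subset_span (by simp)

/-- Linear independence of `F` and `G`. -/
theorem indep {a b : k} (h : C a * F k + C b * G k = 0) : a = 0 ∧ b = 0 := by
  have h0 := congrArg (eval ![1, 0, 0]) h
  have h1 := congrArg (eval ![0, 0, 1]) h
  simp [F, G] at h0 h1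
  exact ⟨h0, h1⟩

theorem F_ne : F k ≠ 0 := by
  intro h
  have := indep (k := k) (a := 1) (b := 0) (by rw [h]; simp)
  exact one_ne_zero this.1

theorem finrank_two_pos :
    0 < Module.finrank k ↥(homogeneousSubmodule (Fin 3) k 2 ⊓ (counterexample k).restrictScalars k :
        Submodule k (MvPolynomial (Fin 3) k)) := by
  have := finite_inf (counterexample k) 2
  refine Module.finrank_pos_iff.2 ⟨⟨⟨F k, F_hom, F_mem⟩, 0, ?_⟩⟩
  intro h
  exact F_ne (congrArg Subtype.val h)

theorem finrank_low (d : ℕ) (hd : d < 2) :
    Module.finrank k ↥(homogeneousSubmodule (Fin 3) k d ⊓ (counterexample k).restrictScalars k :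
        Submodule k (MvPolynomial (Fin 3) k)) = 0 := by
  have h : (homogeneousSubmodule (Fin 3) k d ⊓ (counterexample k).restrictScalars k :
        Submodule k (MvPolynomial (Fin 3) k)) = ⊥ := by
    rw [eq_bot_iff]
    rintro h ⟨h1, h2⟩
    rw [Submodule.mem_bot, ← homogeneousComponent_eq_self h1]
    exact low_of_mem h2 d hd
  rw [h]
  exact finrank_bot k _

theorem eval_swap01 (g : MvPolynomial (Fin 3) k) (x y z : k) :
    eval ![x, y, z] (rename (Equiv.swap (0 : Fin 3) 1) g) = eval ![y, x, z] g := by
  rw [eval_rename]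
  congr 2
  ext i
  fin_cases i <;> simp [Equiv.swap_apply_def]

theorem eval_swap12 (g : MvPolynomial (Fin 3) k) (x y z : k) :
    eval ![x, y, z] (rename (Equiv.swap (1 : Fin 3) 2) g) = eval ![x, z, y] g := by
  rw [eval_rename]
  congr 2
  ext i
  fin_cases i <;> simp [Equiv.swap_apply_def]

theorem eval_FG (a b x y z : k) :
    eval ![x, y, z] (C a * F k + C b * G k) = (x + y + z) * (a * (x - y) + b * (y - z)) := by
  simp [F, G]
  ring

/-- No `k`-symmetric polynomial of degree two in the counterexample. -/
theorem no_ksymmetric_two [CharZero k] {g : MvPolynomial (Fin 3) k} (hg : g ∈ counterexample k)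
    (h2 : g.IsHomogeneous 2) : ¬ IsKSymmetric g := by
  rintro ⟨hg0, hs⟩
  obtain ⟨a, b, rfl⟩ := degree_two hg h2
  obtain ⟨c, hc⟩ := hs (Equiv.swap 0 1)
  obtain ⟨d, hd⟩ := hs (Equiv.swap 1 2)
  have e1 := congrArg (eval ![1, 0, 0]) hc
  have e2 := congrArg (eval ![0, 1, 0]) hc
  have e3 := congrArg (eval ![0, 0, 1]) hc
  have e4 := congrArg (eval ![1, 0, 0]) hd
  have e5 := congrArg (eval ![0, 1, 0]) hd
  have e6 := congrArg (eval ![0, 0, 1]) hd
  simp only [map_mul, eval_C, eval_swap01, eval_FG] at e1 e2 e3
  simp only [map_mul, eval_C, eval_swap12, eval_FG] at e4 e5 e6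
  have key : a = 0 ∧ b = 0 := by
    by_cases hb : b = 0
    · subst hb
      refine ⟨?_, rfl⟩
      linear_combination -e6
    · have hc1 : c = 1 := by
        have h3 : b * (c - 1) = 0 := by linear_combination e3
        rcases mul_eq_zero.1 h3 with h | h
        · exact absurd h hb
        · exact sub_eq_zero.1 h
      subst hc1
      have h4 : b = 2 * a := by linear_combination e1
      have ha : a ≠ 0 := by
        rintro rfl
        exact hb (by rw [h4]; ring)
      have hd1 : d = 1 := by
        have h3 : a * (d - 1) = 0 := by linear_combination -e4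
        rcases mul_eq_zero.1 h3 with h | h
        · exact absurd h ha
        · exact sub_eq_zero.1 h
      subst hd1
      have h5 : (3 : k) * a = 0 := by
        subst h4
        linear_combination -e5
      have h6 : (3 : k) ≠ 0 := by norm_num
      exact absurd ((mul_eq_zero.1 h5).resolve_left h6) ha
  apply hg0
  rw [key.1, key.2]
  simp

/-- If all elements of `J` have order at least two, elements of the counterexample too. -/
theorem mem_ord_two {h : MvPolynomial (Fin 3) k} (hh : h ∈ counterexample k) :
    h ∈ ordIdeal k 3 2 :=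
  mem_ordIdeal_iff.2 fun d hd => low_of_mem hh d hd

theorem ksymmetric_comp {g : MvPolynomial (Fin 3) k} (hg : IsKSymmetric g) (d : ℕ)
    (h0 : homogeneousComponent d g ≠ 0) : IsKSymmetric (homogeneousComponent d g) := by
  refine ⟨h0, fun σ => ?_⟩
  obtain ⟨c, hc⟩ := hg.2 σ
  refine ⟨c, ?_⟩
  rw [rename_homogeneousComponent, hc, homogeneousComponent_C_mul]

/-- A `k`-symmetric element of the counterexample has order at least three. -/
theorem ksymmetric_order [CharZero k] {g : MvPolynomial (Fin 3) k} (hg : g ∈ counterexample k)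
    (hs : IsKSymmetric g) : g ∈ ordIdeal k 3 3 := by
  rw [mem_ordIdeal_iff]
  intro d hd
  by_cases h2 : d < 2
  · exact low_of_mem hg d h2
  · have hd2 : d = 2 := by omega
    subst hd2
    by_contra h0
    exact no_ksymmetric_two (counterexample_homogeneous g hg 2)
      (homogeneousComponent_isHomogeneous 2 g) (ksymmetric_comp hs 2 h0)

/-- No minimal generating set of the counterexample contains a `k`-symmetric polynomial. -/
theorem no_ksymmetric [CharZero k] (S : Set (MvPolynomial (Fin 3) k))
    (hS : IsMinimalGeneratingSet (counterexample k) S) (g : MvPolynomial (Fin 3) k) (hg : g ∈ S) :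
    ¬ IsKSymmetric g := by
  intro hs
  obtain ⟨hspan, hmin⟩ := hS
  have hgI : g ∈ counterexample k := by
    rw [← hspan]
    exact Ideal.subset_span hg
  have hord := ksymmetric_order hgI hs
  rcases hmin with ⟨hhom, hmin⟩ | ⟨hfin, hmin⟩
  · -- homogeneous, inclusion-minimal
    refine hmin (S \ {g}) ⟨Set.sdiff_subset, fun h => (h hg).2 rfl⟩ ?_
    have hle : Ideal.span (S \ {g}) ≤ counterexample k := by
      rw [← hspan]
      exact Ideal.span_mono Set.sdiff_subset
    have hgraded : ∀ f ∈ Ideal.span (S \ {g}), ∀ d,
        homogeneousComponent d f ∈ Ideal.span (S \ {g}) := by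
      intro f hf d
      let _ := gradedAlgebra (σ := Fin 3) (R := k)
      refine homogeneousComponent_mem_of_mem (Ideal.homogeneous_span _ _ fun x hx => ?_) hf d
      obtain ⟨e, he⟩ := hhom x hx.1
      exact ⟨e, he⟩
    have key : ∀ f ∈ counterexample k, f.IsHomogeneous 2 → f ∈ Ideal.span (S \ {g}) := by
      intro f hf hf2
      rw [← hspan, ← Set.insert_sdiff_self_of_mem hg, Ideal.span_insert,
        Submodule.mem_sup] at hf
      obtain ⟨y, hy, z, hz, hyz⟩ := hf
      obtain ⟨r, rfl⟩ := Ideal.mem_span_singleton'.1 hy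
      have h1 : homogeneousComponent 2 (r * g) = 0 :=
        mem_ordIdeal_iff.1 (Ideal.mul_mem_left _ r hord) 2 (by norm_num)
      rw [← homogeneousComponent_eq_self hf2, ← hyz, map_add, h1, zero_add]
      exact hgraded z hz 2
    refine le_antisymm hle ?_
    rw [counterexample_eq, Ideal.span_le]
    intro x hx
    rcases hx with rfl | rfl
    · exact key _ F_mem F_hom
    · exact key _ G_mem G_hom
  · -- least number of elements
    have hcard : S.ncard ≤ 2 := by
      refine (hmin {F k, G k} (Set.toFinite _) counterexample_eq.symm).trans ?_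
      exact (Set.ncard_insert_le _ _).trans (by rw [Set.ncard_singleton])
    have h1 : (S \ {g}).ncard ≤ 1 := by
      have := Set.ncard_sdiff_singleton_add_one hg hfin
      omega
    have hsub : ∃ h : MvPolynomial (Fin 3) k, S \ {g} ⊆ {h} := by
      have hfin' : (S \ {g}).Finite := hfin.subset Set.sdiff_subset
      exact (Set.ncard_le_one_iff_subset_singleton hfin').1 h1
    obtain ⟨h, hh⟩ := hsub
    have hgen : ∀ f ∈ counterexample k, ∃ c : k,
        homogeneousComponent 2 f = C c * homogeneousComponent 2 h := by
      intro f hf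
      have hf' := hf
      rw [← hspan, ← Set.insert_sdiff_self_of_mem hg, Ideal.span_insert,
        Submodule.mem_sup] at hf
      obtain ⟨y, hy, z, hz, hyz⟩ := hf
      obtain ⟨r, rfl⟩ := Ideal.mem_span_singleton'.1 hy
      have h2 : homogeneousComponent 2 (r * g) = 0 :=
        mem_ordIdeal_iff.1 (Ideal.mul_mem_left _ r hord) 2 (by norm_num)
      by_cases hh0 : h ∈ S \ {g}
      · have hz' : z ∈ Ideal.span {h} := Ideal.span_mono hh hz
        obtain ⟨q, rfl⟩ := Ideal.mem_span_singleton'.1 hz'
        have hhI : h ∈ counterexample k := by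
          rw [← hspan]
          exact Ideal.subset_span hh0.1
        refine ⟨coeff 0 q, ?_⟩
        rw [← hyz, map_add, h2, zero_add]
        have hhI' := hhI
        rw [counterexample_eq, Ideal.mem_span_pair] at hhI
        obtain ⟨a, b, hab⟩ := hhI
        have e1 := comp_of_mem hab 0
        have e2 := comp_of_mem (h := q * h) (a := q * a) (b := q * b) (by rw [← hab]; ring) 0
        rw [zero_add] at e1 e2
        rw [e1, e2]
        have e3 : ∀ x y : MvPolynomial (Fin 3) k, coeff 0 (x * y) = coeff 0 x * coeff 0 y :=
          fun x y => by simpa [constantCoeff_eq] using map_mul constantCoeff x y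
        rw [homogeneousComponent_zero, homogeneousComponent_zero, homogeneousComponent_zero,
          homogeneousComponent_zero, e3, e3, C_mul, C_mul]
        ring
      · have hemp : S \ {g} = ∅ := by
          rcases Set.subset_singleton_iff_eq.1 hh with h3 | h3
          · exact h3
          · exact absurd (by rw [h3]; rfl) hh0
        rw [hemp, Ideal.span_empty, Submodule.mem_bot] at hz
        refine ⟨0, ?_⟩
        rw [← hyz, map_add, h2, hz]
        simp
    obtain ⟨c, hc⟩ := hgen _ F_mem
    obtain ⟨d, hd⟩ := hgen _ G_mem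
    rw [homogeneousComponent_eq_self F_hom] at hc
    rw [homogeneousComponent_eq_self G_hom] at hd
    have h3 : C d * F k + C (-c) * G k = 0 := by
      rw [hc, hd, C_neg]
      ring
    obtain ⟨h4, -⟩ := indep h3
    rw [h4] at hd
    have h5 : C (0 : k) * F k + C 1 * G k = 0 := by
      rw [hd]
      simp
    exact one_ne_zero (indep h5).2

/-- The exponent vectors of degree two: squares and products of two different variables. -/
noncomputable def expo (t : Bool) (a : Fin 3) : Fin 3 →₀ ℕ :=
  match t with
  | true => Finsupp.single a 2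
  | false => Finsupp.equivFunOnFinite.symm fun i => if i = a then 0 else 1

theorem expo_apply (t : Bool) (a i : Fin 3) :
    expo t a i = match t with
      | true => if i = a then 2 else 0
      | false => if i = a then 0 else 1 := by
  cases t
  · rfl
  · simp only [expo, Finsupp.single_apply]
    by_cases h : a = i
    · subst h; simp
    · rw [if_neg h, if_neg (Ne.symm h)]

theorem expo_inj (t t' : Bool) (a b : Fin 3) : expo t a = expo t' b ↔ t = t' ∧ a = b := by
  constructor
  · intro h
    have h0 := DFunLike.congr_fun h 0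
    have h1 := DFunLike.congr_fun h 1
    have h2 := DFunLike.congr_fun h 2
    simp only [expo_apply] at h0 h1 h2
    cases t <;> cases t' <;> fin_cases a <;> fin_cases b <;> simp_all
  · rintro ⟨rfl, rfl⟩
    rfl

theorem expo_degree (t : Bool) (a : Fin 3) : (expo t a).degree = 2 := by
  rw [Finsupp.degree_eq_sum, Fin.sum_univ_three]
  simp only [expo_apply]
  cases t <;> fin_cases a <;> simp

theorem exists_expo (u : Fin 3 →₀ ℕ) (hu : u.degree = 2) : ∃ t a, u = expo t a := by
  rw [Finsupp.degree_eq_sum, Fin.sum_univ_three] at hu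
  have key : ∀ (t : Bool) (a : Fin 3), u 0 = expo t a 0 → u 1 = expo t a 1 → u 2 = expo t a 2 →
      ∃ t a, u = expo t a := by
    intro t a h0 h1 h2
    refine ⟨t, a, ?_⟩
    ext i
    fin_cases i
    · exact h0
    · exact h1
    · exact h2
  have h : (u 0 = 2 ∧ u 1 = 0 ∧ u 2 = 0) ∨ (u 0 = 0 ∧ u 1 = 2 ∧ u 2 = 0) ∨
      (u 0 = 0 ∧ u 1 = 0 ∧ u 2 = 2) ∨ (u 0 = 0 ∧ u 1 = 1 ∧ u 2 = 1) ∨
      (u 0 = 1 ∧ u 1 = 0 ∧ u 2 = 1) ∨ (u 0 = 1 ∧ u 1 = 1 ∧ u 2 = 0) := by omega
  rcases h with ⟨h0, h1, h2⟩ | ⟨h0, h1, h2⟩ | ⟨h0, h1, h2⟩ | ⟨h0, h1, h2⟩ | ⟨h0, h1, h2⟩ |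
    ⟨h0, h1, h2⟩
  · exact key true 0 (by simp [expo_apply, h0]) (by simp [expo_apply, h1])
      (by simp [expo_apply, h2])
  · exact key true 1 (by simp [expo_apply, h0]) (by simp [expo_apply, h1])
      (by simp [expo_apply, h2])
  · exact key true 2 (by simp [expo_apply, h0]) (by simp [expo_apply, h1])
      (by simp [expo_apply, h2])
  · exact key false 0 (by simp [expo_apply, h0]) (by simp [expo_apply, h1])
      (by simp [expo_apply, h2])
  · exact key false 1 (by simp [expo_apply, h0]) (by simp [expo_apply, h1])
      (by simp [expo_apply, h2])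
  · exact key false 2 (by simp [expo_apply, h0]) (by simp [expo_apply, h1])
      (by simp [expo_apply, h2])

theorem mapDomain_expo (σ : Equiv.Perm (Fin 3)) (t : Bool) (a : Fin 3) :
    Finsupp.mapDomain σ (expo t a) = expo t (σ a) := by
  ext i
  have h : Finsupp.mapDomain σ (expo t a) i = expo t a (σ.symm i) := by
    rw [← Finsupp.equivMapDomain_eq_mapDomain]
    rfl
  rw [h, expo_apply, expo_apply]
  have h1 : (σ.symm i = a) = (i = σ a) := by
    rw [Equiv.symm_apply_eq]
  simp only [h1]

theorem eval_true (x : Fin 3 → k) (a : Fin 3) (r : k) :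
    eval x (monomial (expo true a) r) = r * x a ^ 2 := by
  rw [eval_monomial, Finsupp.prod_fintype _ _ (by simp), Fin.prod_univ_three]
  simp only [expo_apply]
  fin_cases a <;> simp

theorem eval_false (x : Fin 3 → k) (r : k) :
    eval x (monomial (expo false 0) r) = r * (x 1 * x 2) ∧
    eval x (monomial (expo false 1) r) = r * (x 0 * x 2) ∧
    eval x (monomial (expo false 2) r) = r * (x 0 * x 1) := by
  refine ⟨?_, ?_, ?_⟩ <;>
  · rw [eval_monomial, Finsupp.prod_fintype _ _ (by simp), Fin.prod_univ_three]
    simp only [expo_apply]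
    simp

theorem card_le_finrank {M : Type u} [AddCommGroup M] [Module k M] (W : Submodule k M)
    [Module.Finite k W] (m : ℕ) (v : Fin m → M) (hv : ∀ i, v i ∈ W)
    (hli : LinearIndependent k v) : m ≤ Module.finrank k W := by
  have h : LinearIndependent k (fun i => (⟨v i, hv i⟩ : W)) :=
    LinearIndependent.of_comp W.subtype hli
  simpa using h.fintype_card_le_finrank

/-- The homogeneous part of degree `d` of an ideal. -/
noncomputable abbrev part (J : Ideal (MvPolynomial (Fin 3) k)) (d : ℕ) :
    Submodule k (MvPolynomial (Fin 3) k) :=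
  homogeneousSubmodule (Fin 3) k d ⊓ J.restrictScalars k

theorem comp_monomial (d : ℕ) (m : Fin 3 →₀ ℕ) (a : k) :
    homogeneousComponent d (monomial m a) = if m.degree = d then monomial m a else 0 := by
  rw [homogeneousComponent_of_mem (isHomogeneous_monomial a rfl)]
  by_cases h : m.degree = d
  · rw [if_pos h, if_pos h.symm]
  · rw [if_neg h, if_neg (Ne.symm h)]

/-- The quadratic component of a monomial or binomial. -/
theorem comp_binomial {b : MvPolynomial (Fin 3) k} (hb : IsMonomialOrBinomial b)
    (h2 : homogeneousComponent 2 b ≠ 0) :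
    ∃ (t t' : Bool) (a c : Fin 3) (α β : k), ¬ (t = t' ∧ a = c) ∧ α ≠ 0 ∧
      homogeneousComponent 2 b = monomial (expo t a) α + monomial (expo t' c) β := by
  have hother : ∀ (t : Bool) (a : Fin 3), ¬ (t = (!t) ∧ a = a) := by
    intro t a h
    cases t <;> simp at h
  have hsingle : ∀ (m : Fin 3 →₀ ℕ) (a : k), a ≠ 0 → m.degree = 2 →
      homogeneousComponent 2 b = monomial m a →
      ∃ (t t' : Bool) (a c : Fin 3) (α β : k), ¬ (t = t' ∧ a = c) ∧ α ≠ 0 ∧
      homogeneousComponent 2 b = monomial (expo t a) α + monomial (expo t' c) β := by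
    intro m a ha hm h
    obtain ⟨t, i, rfl⟩ := exists_expo m hm
    exact ⟨t, !t, i, i, a, 0, hother t i, ha, by rw [h]; simp⟩
  rcases hb with ⟨m, a, ha, rfl⟩ | ⟨m₁, m₂, a, c, hm, ha, hc, rfl⟩
  · by_cases hd : m.degree = 2
    · exact hsingle m a ha hd (by rw [comp_monomial, if_pos hd])
    · exact absurd (by rw [comp_monomial, if_neg hd]) h2
  · rw [map_add, comp_monomial, comp_monomial] at h2 hsingle ⊢
    by_cases h₁ : m₁.degree = 2
    · by_cases h₂ : m₂.degree = 2
      · rw [if_pos h₁, if_pos h₂]
        obtain ⟨t, i, rfl⟩ := exists_expo m₁ h₁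
        obtain ⟨t', j, rfl⟩ := exists_expo m₂ h₂
        exact ⟨t, t', i, j, a, c, fun h => hm ((expo_inj _ _ _ _).2 h), ha, rfl⟩
      · exact hsingle m₁ a ha h₁ (by rw [if_pos h₁, if_neg h₂, add_zero])
    · by_cases h₂ : m₂.degree = 2
      · exact hsingle m₂ c hc h₂ (by rw [if_pos h₂, if_neg h₁, zero_add])
      · rw [if_neg h₁, if_neg h₂, add_zero] at h2
        exact absurd rfl h2

theorem mem_of_symmetric {J : Ideal (MvPolynomial (Fin 3) k)} (hJ : IsSymmetricIdeal J)
    {f : MvPolynomial (Fin 3) k} (hf : f ∈ J) (σ : Equiv.Perm (Fin 3)) :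
    rename (R := k) σ f ∈ J := by
  have h := Ideal.mem_map_of_mem (rename (R := k) σ) hf
  rwa [hJ σ] at h

theorem hom_expo (t : Bool) (a : Fin 3) (r : k) : (monomial (expo t a) r).IsHomogeneous 2 :=
  isHomogeneous_monomial r (expo_degree t a)

/-- Six independent cubics. -/
theorem six [CharZero k] {J : Ideal (MvPolynomial (Fin 3) k)} (t : Bool)
    (h : ∀ a b : Fin 3, monomial (expo t a) (1 : k) - monomial (expo t b) 1 ∈ J) :
    6 ≤ Module.finrank k (part J 3) := by
  have := finite_inf J 3
  let p : MvPolynomial (Fin 3) k := monomial (expo t 0) (1 : k) - monomial (expo t 1) 1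
  let q : MvPolynomial (Fin 3) k := monomial (expo t 1) (1 : k) - monomial (expo t 2) 1
  have hp : p.IsHomogeneous 2 := (hom_expo t 0 1).sub (hom_expo t 1 1)
  have hq : q.IsHomogeneous 2 := (hom_expo t 1 1).sub (hom_expo t 2 1)
  have hpJ : p ∈ J := h 0 1
  have hqJ : q ∈ J := h 1 2
  have h1 : ∀ (i : Fin 3) (f : MvPolynomial (Fin 3) k), f.IsHomogeneous 2 → f ∈ J →
      X i * f ∈ part J 3 := by
    intro i f hf hfJ
    refine ⟨?_, J.mul_mem_left _ hfJ⟩
    have := (isHomogeneous_X k i).mul hf
    exact this
  refine card_le_finrank (part J 3) 6 ![X 0 * p, X 1 * p, X 2 * p, X 0 * q, X 1 * q, X 2 * q]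
    ?_ ?_
  · intro i
    fin_cases i
    · exact h1 0 p hp hpJ
    · exact h1 1 p hp hpJ
    · exact h1 2 p hp hpJ
    · exact h1 0 q hq hqJ
    · exact h1 1 q hq hqJ
    · exact h1 2 q hq hqJ
  · rw [Fintype.linearIndependent_iff]
    intro g hg
    rw [Fin.sum_univ_six] at hg
    simp only [Matrix.cons_val, smul_eq_C_mul] at hg
    have hev : ∀ x : Fin 3 → k, (g 0 * x 0 + g 1 * x 1 + g 2 * x 2) * eval x p +
        (g 3 * x 0 + g 4 * x 1 + g 5 * x 2) * eval x q = 0 := by
      intro x
      have h2 := congrArg (eval x) hg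
      simp only [map_add, map_mul, eval_C, eval_X, map_zero] at h2
      linear_combination h2
    have h2ne : (2 : k) ≠ 0 := by norm_num
    have hres : g 0 = 0 ∧ g 1 = 0 ∧ g 2 = 0 ∧ g 3 = 0 ∧ g 4 = 0 ∧ g 5 = 0 := by
      cases t
      · have hevp : ∀ x : Fin 3 → k, eval x p = x 1 * x 2 - x 0 * x 2 := by
          intro x
          simp only [p, map_sub, (eval_false x 1).1, (eval_false x 1).2.1]
          ring
        have hevq : ∀ x : Fin 3 → k, eval x q = x 0 * x 2 - x 0 * x 1 := by
          intro x
          simp only [q, map_sub, (eval_false x 1).2.2, (eval_false x 1).2.1]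
          ring
        simp only [hevp, hevq] at hev
        have e1 := hev ![0, 1, 1]
        have e2 := hev ![0, 1, -1]
        have e3 := hev ![1, 0, 1]
        have e4 := hev ![1, 0, -1]
        have e5 := hev ![1, 1, 0]
        have e6 := hev ![1, -1, 0]
        simp only [Matrix.cons_val] at e1 e2 e3 e4 e5 e6
        have g1 : g 1 = 0 := by
          have : (2 : k) * g 1 = 0 := by linear_combination e1 - e2
          exact (mul_eq_zero.1 this).resolve_left h2ne
        have g2 : g 2 = 0 := by
          have : (2 : k) * g 2 = 0 := by linear_combination e1 + e2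
          exact (mul_eq_zero.1 this).resolve_left h2ne
        have g3 : g 3 = 0 := by
          have : (2 : k) * g 3 = 0 := by linear_combination -e5 + e6
          exact (mul_eq_zero.1 this).resolve_left h2ne
        have g4 : g 4 = 0 := by
          have : (2 : k) * g 4 = 0 := by linear_combination -e5 - e6
          exact (mul_eq_zero.1 this).resolve_left h2ne
        rw [g2, g3] at e3 e4
        have g0 : g 0 = 0 := by
          have : (2 : k) * g 0 = 0 := by linear_combination -e3 + e4
          exact (mul_eq_zero.1 this).resolve_left h2ne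
        have g5 : g 5 = 0 := by
          have : (2 : k) * g 5 = 0 := by linear_combination e3 + e4
          exact (mul_eq_zero.1 this).resolve_left h2ne
        exact ⟨g0, g1, g2, g3, g4, g5⟩
      · have hevp : ∀ x : Fin 3 → k, eval x p = x 0 ^ 2 - x 1 ^ 2 := by
          intro x
          simp only [p, map_sub, eval_true]
          ring
        have hevq : ∀ x : Fin 3 → k, eval x q = x 1 ^ 2 - x 2 ^ 2 := by
          intro x
          simp only [q, map_sub, eval_true]
          ring
        simp only [hevp, hevq] at hev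
        have e1 := hev ![1, 0, 0]
        have e2 := hev ![0, 0, 1]
        have e3 := hev ![1, 1, 0]
        have e4 := hev ![1, -1, 0]
        have e5 := hev ![0, 1, 0]
        have e6 := hev ![0, 1, 1]
        simp only [Matrix.cons_val] at e1 e2 e3 e4 e5 e6
        have g0 : g 0 = 0 := by linear_combination e1
        have g5 : g 5 = 0 := by linear_combination -e2
        have g3 : g 3 = 0 := by
          have : (2 : k) * g 3 = 0 := by linear_combination e3 + e4
          exact (mul_eq_zero.1 this).resolve_left h2ne
        have g4 : g 4 = 0 := by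
          have : (2 : k) * g 4 = 0 := by linear_combination e3 - e4
          exact (mul_eq_zero.1 this).resolve_left h2ne
        have g1 : g 1 = 0 := by linear_combination -e5 + g4
        have g2 : g 2 = 0 := by linear_combination -e6 - g1
        exact ⟨g0, g1, g2, g3, g4, g5⟩
    obtain ⟨g0, g1, g2, g3, g4, g5⟩ := hres
    intro i
    fin_cases i
    · exact g0
    · exact g1
    · exact g2
    · exact g3
    · exact g4
    · exact g5

/-- Three independent quadrics. -/
theorem three_le {J : Ideal (MvPolynomial (Fin 3) k)} (v : Fin 3 → MvPolynomial (Fin 3) k)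
    (hv : ∀ i, v i ∈ J ∧ (v i).IsHomogeneous 2)
    (h : ∀ g : Fin 3 → k, ∑ i, g i • v i = 0 → ∀ i, g i = 0) :
    3 ≤ Module.finrank k (part J 2) := by
  have := finite_inf J 2
  exact card_le_finrank (part J 2) 3 v (fun i => ⟨(hv i).2, (hv i).1⟩)
    (Fintype.linearIndependent_iff.2 h)

theorem coeff_expo (t t' : Bool) (a b : Fin 3) (r : k) :
    coeff (expo t a) (monomial (expo t' b) r) = if t' = t ∧ b = a then r else 0 := by
  rw [coeff_monomial]
  by_cases h : expo t' b = expo t a
  · rw [if_pos h, if_pos ((expo_inj _ _ _ _).1 h)]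
  · rw [if_neg h, if_neg fun h1 => h ((expo_inj _ _ _ _).2 h1)]

theorem two_transitive : ∀ a b c d : Fin 3, a ≠ b → c ≠ d →
    ∃ σ : Equiv.Perm (Fin 3), σ a = c ∧ σ b = d := by
  decide

/-- A symmetric homogeneous ideal whose quadratic part is of dimension at most two and contains a
monomial or a binomial has a cubic part of dimension at least six. -/
theorem six_le_of_binomial [CharZero k] {J : Ideal (MvPolynomial (Fin 3) k)}
    (hJ : IsSymmetricIdeal J) (h2 : Module.finrank k (part J 2) ≤ 2) {t t' : Bool} {a c : Fin 3}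
    {α β : k} (hne : ¬ (t = t' ∧ a = c)) (hα : α ≠ 0)
    (hmem : (monomial (expo t a) α + monomial (expo t' c) β : MvPolynomial (Fin 3) k) ∈ J) :
    6 ≤ Module.finrank k (part J 3) := by
  have hperm : ∀ σ : Equiv.Perm (Fin 3),
      (monomial (expo t (σ a)) α + monomial (expo t' (σ c)) β : MvPolynomial (Fin 3) k) ∈ J := by
    intro σ
    have h := mem_of_symmetric hJ hmem σ
    rwa [map_add, rename_monomial, rename_monomial, mapDomain_expo, mapDomain_expo] at h
  by_cases h1 : t ≠ t' ∨ β = 0
  · exfalso
    have h3 := three_le (J := J)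
      (fun i => monomial (expo t i) α + monomial (expo t' (Equiv.swap a i c)) β) ?_ ?_
    · omega
    · intro i
      refine ⟨?_, (hom_expo _ _ _).add (hom_expo _ _ _)⟩
      have := hperm (Equiv.swap a i)
      rwa [Equiv.swap_apply_left] at this
    · intro g hg i
      have h4 := congrArg (coeff (expo t i)) hg
      rw [coeff_sum] at h4
      have h5 : ∀ j : Fin 3, coeff (expo t i) (g j • (monomial (expo t j) α +
          monomial (expo t' (Equiv.swap a j c)) β : MvPolynomial (Fin 3) k)) =
          if j = i then g j * α else 0 := by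
        intro j
        rw [coeff_smul, coeff_add, coeff_expo, coeff_expo, smul_eq_mul]
        rcases h1 with h1 | h1
        · rw [if_neg (fun h : t' = t ∧ _ => h1 h.1.symm)]
          by_cases hij : j = i
          · rw [if_pos ⟨rfl, hij⟩, if_pos hij, add_zero]
          · rw [if_neg fun h => hij h.2, if_neg hij]
            ring
        · rw [h1]
          by_cases hij : j = i
          · rw [if_pos ⟨rfl, hij⟩, if_pos hij]
            simp
          · rw [if_neg fun h => hij h.2, if_neg hij]
            simp
      rw [Finset.sum_congr rfl fun j _ => h5 j, Finset.sum_ite_eq' Finset.univ i,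
        if_pos (Finset.mem_univ i), coeff_zero] at h4
      exact (mul_eq_zero.1 h4).resolve_right hα
  · push Not at h1
    obtain ⟨htt, hβ⟩ := h1
    subst htt
    have hac : a ≠ c := fun h => hne ⟨rfl, h⟩
    have hpair : ∀ i j : Fin 3, i ≠ j →
        (monomial (expo t i) α + monomial (expo t j) β : MvPolynomial (Fin 3) k) ∈ J := by
      intro i j hij
      obtain ⟨σ, h3, h4⟩ := two_transitive a c i j hac hij
      have := hperm σ
      rwa [h3, h4] at this
    by_cases hs : α + β = 0
    · refine six t fun i j => ?_
      by_cases hij : i = j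
      · subst hij
        rw [sub_self]
        exact zero_mem _
      · have h3 := J.mul_mem_left (C α⁻¹) (hpair i j hij)
        have h4 : C α⁻¹ * (monomial (expo t i) α + monomial (expo t j) β :
            MvPolynomial (Fin 3) k) = monomial (expo t i) 1 - monomial (expo t j) 1 := by
          have hβ' : β = -α := by linear_combination hs
          rw [mul_add, C_mul_monomial, C_mul_monomial, hβ', mul_neg, inv_mul_cancel₀ hα,
            sub_eq_add_neg, ← map_neg]
        rwa [h4] at h3
    · exfalso
      have h3 := three_le (J := J)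
        ![monomial (expo t 0) α + monomial (expo t 1) β,
          monomial (expo t 0) α + monomial (expo t 2) β,
          monomial (expo t 1) α + monomial (expo t 2) β] ?_ ?_
      · omega
      · intro i
        fin_cases i
        · exact ⟨hpair 0 1 (by decide), (hom_expo _ _ _).add (hom_expo _ _ _)⟩
        · exact ⟨hpair 0 2 (by decide), (hom_expo _ _ _).add (hom_expo _ _ _)⟩
        · exact ⟨hpair 1 2 (by decide), (hom_expo _ _ _).add (hom_expo _ _ _)⟩
      · intro g hg
        rw [Fin.sum_univ_three] at hg
        simp only [Matrix.cons_val] at hg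
        have e0 := congrArg (coeff (expo t 0)) hg
        have e1 := congrArg (coeff (expo t 1)) hg
        have e2 := congrArg (coeff (expo t 2)) hg
        simp only [coeff_add, coeff_smul, coeff_expo, smul_eq_mul, coeff_zero, true_and] at e0 e1 e2
        simp at e0 e1 e2
        have f1 : g 1 = - g 0 := by
          have : α * (g 1 + g 0) = 0 := by linear_combination e0
          have := (mul_eq_zero.1 this).resolve_left hα
          linear_combination this
        have f2 : g 2 = - g 1 := by
          have : β * (g 2 + g 1) = 0 := by linear_combination e2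
          have := (mul_eq_zero.1 this).resolve_left hβ
          linear_combination this
        have f0 : g 0 = 0 := by
          have : (α + β) * g 0 = 0 := by
            rw [f2, f1] at e1
            linear_combination e1
          exact (mul_eq_zero.1 this).resolve_left hs
        intro i
        fin_cases i
        · exact f0
        · change g 1 = 0
          rw [f1, f0, neg_zero]
        · change g 2 = 0
          rw [f2, f1, f0, neg_zero, neg_zero]

/-- The main step: no symmetric ideal generated by monomials and binomials has the Hilbert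
function of the counterexample. -/
theorem no_ideal [CharZero k] (J : Ideal (MvPolynomial (Fin 3) k)) (hJh : IsHomogeneousIdeal J)
    (hJs : IsSymmetricIdeal J)
    (B : Set (MvPolynomial (Fin 3) k)) (hB : ∀ b ∈ B, IsMonomialOrBinomial b)
    (hJB : J = Ideal.span B) :
    ∃ d : ℕ, hilbertFunction (counterexample k) d ≠ hilbertFunction J d := by
  by_contra hcon
  push Not at hcon
  have hfin : ∀ d, Module.finrank k (part (counterexample k) d) = Module.finrank k (part J d) :=
    fun d => finrank_eq_of_hilbert (hcon d)
  have hlow : ∀ d < 2, ∀ h ∈ J, homogeneousComponent d h = 0 := by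
    intro d hd h hh
    have := finite_inf J d
    have h0 : Module.finrank k (part J d) = 0 := by
      rw [← hfin d]
      exact finrank_low d hd
    have h1 : part J d = ⊥ := Submodule.finrank_eq_zero.1 h0
    have h2 : homogeneousComponent d h ∈ part J d :=
      ⟨homogeneousComponent_isHomogeneous d h, hJh h hh d⟩
    rw [h1] at h2
    exact (Submodule.mem_bot k).1 h2
  have hex : ∃ b ∈ B, homogeneousComponent 2 b ≠ 0 := by
    by_contra hno
    push Not at hno
    have hle : J ≤ ordIdeal k 3 3 := by
      rw [hJB, Ideal.span_le]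
      intro b hb
      refine mem_ordIdeal_iff.2 fun d hd => ?_
      by_cases h2 : d < 2
      · exact hlow d h2 b (by rw [hJB]; exact Ideal.subset_span hb)
      · have : d = 2 := by omega
        subst this
        exact hno b hb
    have hbot : part J 2 = ⊥ := by
      rw [eq_bot_iff]
      rintro h ⟨h1, h2⟩
      rw [Submodule.mem_bot, ← homogeneousComponent_eq_self h1]
      exact mem_ordIdeal_iff.1 (hle h2) 2 (by norm_num)
    have h3 := finrank_two_pos (k := k)
    have h4 := hfin 2
    rw [hbot, finrank_bot] at h4
    rw [h4] at h3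
    exact absurd h3 (lt_irrefl 0)
  obtain ⟨b, hb, hb2⟩ := hex
  obtain ⟨t, t', a, c, α, β, hne, hα, heq⟩ := comp_binomial (hB b hb) hb2
  have hbJ : homogeneousComponent 2 b ∈ J :=
    hJh b (by rw [hJB]; exact Ideal.subset_span hb) 2
  rw [heq] at hbJ
  have h6 := six_le_of_binomial hJs (by rw [← hfin 2]; exact finrank_two) hne hα hbJ
  rw [← hfin 3] at h6
  exact absurd (h6.trans finrank_three) (by norm_num)

end Three

/-- Q1 of MP_f9b6b5_al has a negative answer. For every field `k` of characteristic zero the
principal symmetric ideal `I` of `k[x_1, x_2, x_3]` generated by the orbit of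
`(x_1 + x_2 + x_3) (x_1 - x_2)` is homogeneous and symmetric, no minimal generating set of `I`
contains a `k`-symmetric polynomial, and for every homogeneous symmetric ideal `J` generated by
monomials and binomials there is a degree `d` with `H_I(d) ≠ H_J(d)`. -/
theorem result (k : Type u) [Field k] [CharZero k] :
    IsHomogeneousIdeal (counterexample k) ∧ IsSymmetricIdeal (counterexample k) ∧
      (∀ S : Set (MvPolynomial (Fin 3) k), IsMinimalGeneratingSet (counterexample k) S →
        ∀ f ∈ S, ¬ IsKSymmetric f) ∧
      ∀ J : Ideal (MvPolynomial (Fin 3) k), IsHomogeneousIdeal J → IsSymmetricIdeal J →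
        (∃ B : Set (MvPolynomial (Fin 3) k), (∀ b ∈ B, IsMonomialOrBinomial b) ∧
          J = Ideal.span B) →
        ∃ d : ℕ, hilbertFunction (counterexample k) d ≠ hilbertFunction J d :=
  ⟨counterexample_homogeneous, counterexample_symmetric, fun S hS f hf => no_ksymmetric S hS f hf,
    fun J h1 h2 ⟨B, h3, h4⟩ => no_ideal J h1 h2 B h3 h4⟩

end Pool.Agent.Results.MP_f9b6b5_al.NoBinomialIdeal
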